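import Mathlib
import Pool.Agent.Q184.LinCoarse.Defs
import Pool.Agent.Q184.LinCoarse.Main

/-!
# Linearly ordered coarse spaces embed into linearly ordered coarse spaces with an interval base

The definitions are in `Pool.Agent.Q184.LinCoarse.Defs`.
-/

universe u

open Q184.LinCoarse

namespace Pool.Agent.Results.MP_54b381_gt.IntervalEmbedding

/-- Every linearly ordered coarse space `X` is asymorphic, by an order preserving map, to a
subspace `Y` of a linearly ordered coarse space `Z` whose coarse structure has an interval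
base. -/
theorem result (X : Type u) [LinearOrder X] (𝓔 : Set (Set (X × X))) (h𝓔 : IsCoarse 𝓔)
    (hconn : IsConnected 𝓔) (hcomp : Compatible 𝓔) :
    ∃ (Z : Type u) (_ : LinearOrder Z) (𝓔Z : Set (Set (Z × Z))),
      IsCoarse 𝓔Z ∧ IsConnected 𝓔Z ∧ Compatible 𝓔Z ∧ HasIntervalBase 𝓔Z ∧
      ∃ (Y : Set Z) (f : X ≃ Y), StrictMono f ∧
        MacroUniform 𝓔 (subspace 𝓔Z Y) f ∧ MacroUniform (subspace 𝓔Z Y) 𝓔 f.symm := by
  obtain ⟨h1, h2, h3, h4, f, hf1, hf2, hf3⟩ := main h𝓔 hconn hcomp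
  exact ⟨Z 𝓔, inferInstance, extStr 𝓔, h1, h2, h3, h4, _, f, hf1, hf2, hf3⟩

end Pool.Agent.Results.MP_54b381_gt.IntervalEmbedding
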